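import Mathlib

namespace Pool.Agent.Q210.RS

open MeasureTheory Set Filter Topology ProbabilityTheory
open scoped Pointwise BoundedContinuousFunction ENNReal

section support

variable {X : Type*} [NormedAddCommGroup X] [NormedSpace ℝ X]

/-- `A ∈ BC(X)`: a non-empty convex bounded subset of `X`. -/
structure IsBC (A : Set X) : Prop where
  nonempty : A.Nonempty
  convex : Convex ℝ A
  bounded : Bornology.IsBounded A

lemma bdd_image {A : Set X} (hA : Bornology.IsBounded A) (f : StrongDual ℝ X) :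
    BddAbove ((fun a => f a) '' A) := by
  obtain ⟨C, hC⟩ := hA.exists_norm_le
  refine ⟨‖f‖ * C, ?_⟩
  rintro _ ⟨a, ha, rfl⟩
  exact (le_abs_self _).trans ((f.le_opNorm a).trans (by
    have := hC a ha
    gcongr))

lemma supp_le {A : Set X} (hne : A.Nonempty) {C : ℝ} (hC : ∀ a ∈ A, ‖a‖ ≤ C)
    (f g : StrongDual ℝ X) :
    sSup ((fun a => f a) '' A) ≤ sSup ((fun a => g a) '' A) + C * ‖f - g‖ := by
  apply csSup_le (hne.image _)
  rintro _ ⟨a, ha, rfl⟩
  have h1 : g a ≤ sSup ((fun a => g a) '' A) := by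
    apply le_csSup (bdd_image (isBounded_iff_forall_norm_le.mpr ⟨C, hC⟩) g)
    exact ⟨a, ha, rfl⟩
  have h2 : (f - g) a ≤ ‖f - g‖ * ‖a‖ := (le_abs_self _).trans ((f - g).le_opNorm a)
  have h3 : ‖f - g‖ * ‖a‖ ≤ C * ‖f - g‖ := by
    rw [mul_comm]
    exact mul_le_mul_of_nonneg_right (hC a ha) (norm_nonneg _)
  have h4 : (f - g) a = f a - g a := rfl
  show f a ≤ _
  linarith

/-- The values of the support function of a bounded set are bounded on the dual sphere. -/
lemma supp_cont {A : Set X} (h : A.Nonempty ∧ Bornology.IsBounded A) :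
    Continuous (fun f : Metric.sphere (0 : StrongDual ℝ X) 1 =>
      sSup ((fun a => (f : StrongDual ℝ X) a) '' A)) := by
  obtain ⟨C, hC⟩ := h.2.exists_norm_le
  have hC0 : 0 ≤ C := by
    obtain ⟨a, ha⟩ := h.1
    exact (norm_nonneg a).trans (hC a ha)
  have hl : LipschitzWith C.toNNReal
      (fun f : StrongDual ℝ X => sSup ((fun a => f a) '' A)) := by
    apply LipschitzWith.of_dist_le_mul
    intro f g
    rw [Real.dist_eq, dist_eq_norm, abs_le, Real.coe_toNNReal C hC0]
    have h1 := supp_le h.1 hC f g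
    have h2 := supp_le h.1 hC g f
    rw [norm_sub_rev] at h2
    constructor <;> linarith
  exact hl.continuous.comp continuous_subtype_val

lemma supp_bound {A : Set X} (h : A.Nonempty ∧ Bornology.IsBounded A) :
    ∃ C, ∀ f : Metric.sphere (0 : StrongDual ℝ X) 1,
      ‖sSup ((fun a => (f : StrongDual ℝ X) a) '' A)‖ ≤ C := by
  obtain ⟨C, hC⟩ := h.2.exists_norm_le
  refine ⟨C, fun f => ?_⟩
  have hf : ‖(f : StrongDual ℝ X)‖ = 1 := by simp
  have hb : ∀ a ∈ A, |(f : StrongDual ℝ X) a| ≤ C := fun a ha => by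
    have := (f : StrongDual ℝ X).le_opNorm a
    rw [hf, one_mul] at this
    exact this.trans (hC a ha)
  obtain ⟨a0, ha0⟩ := h.1
  rw [Real.norm_eq_abs, abs_le]
  constructor
  · have h1 : (f : StrongDual ℝ X) a0 ≤ sSup ((fun a => (f : StrongDual ℝ X) a) '' A) :=
      le_csSup (bdd_image h.2 _) ⟨a0, ha0, rfl⟩
    have := (abs_le.mp (hb a0 ha0)).1
    linarith
  · apply csSup_le (h.1.image _)
    rintro _ ⟨a, ha, rfl⟩
    exact (abs_le.mp (hb a ha)).2

open Classical in
/-- The Rådström embedding: `R(A)(x*) = sup_{a ∈ A} x*(a)` for `x*` in the dual unit sphere, a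
bounded continuous function there. (For an empty or unbounded set the value is `0`.) -/
noncomputable def R (A : Set X) : Metric.sphere (0 : StrongDual ℝ X) 1 →ᵇ ℝ :=
  if h : A.Nonempty ∧ Bornology.IsBounded A then
    BoundedContinuousFunction.ofNormedAddCommGroup
      (fun f => sSup ((fun a => (f : StrongDual ℝ X) a) '' A)) (supp_cont h)
      (Classical.choose (supp_bound h)) (Classical.choose_spec (supp_bound h))
  else 0

lemma R_apply {A : Set X} (hA : IsBC A) (f : Metric.sphere (0 : StrongDual ℝ X) 1) :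
    R A f = sSup ((fun a => (f : StrongDual ℝ X) a) '' A) := by
  unfold R
  rw [dif_pos ⟨hA.nonempty, hA.bounded⟩]
  rfl

lemma IsBC.add {A B : Set X} (hA : IsBC A) (hB : IsBC B) : IsBC (A + B) :=
  ⟨hA.nonempty.add hB.nonempty, hA.convex.add hB.convex, hA.bounded.add hB.bounded⟩

lemma IsBC.smul {A : Set X} (hA : IsBC A) (c : ℝ) : IsBC (c • A) :=
  ⟨hA.nonempty.smul_set, hA.convex.smul c, hA.bounded.smul₀ c⟩

lemma isBC_zero : IsBC (0 : Set X) :=
  ⟨⟨0, rfl⟩, convex_singleton 0, Bornology.isBounded_singleton⟩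

lemma IsBC.sum {ι : Type*} (s : Finset ι) {A : ι → Set X} (hA : ∀ i ∈ s, IsBC (A i)) :
    IsBC (∑ i ∈ s, A i) := by
  classical
  induction s using Finset.induction_on with
  | empty => simpa using isBC_zero
  | insert a s ha ih =>
    rw [Finset.sum_insert ha]
    exact (hA a (Finset.mem_insert_self _ _)).add
      (ih (fun i hi => hA i (Finset.mem_insert_of_mem hi)))

lemma R_add {A B : Set X} (hA : IsBC A) (hB : IsBC B) : R (A + B) = R A + R B := by
  ext f
  rw [BoundedContinuousFunction.add_apply, R_apply hA, R_apply hB, R_apply (hA.add hB)]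
  have : (fun a => (f : StrongDual ℝ X) a) '' (A + B) =
      (fun a => (f : StrongDual ℝ X) a) '' A + (fun a => (f : StrongDual ℝ X) a) '' B :=
    image_add (f : StrongDual ℝ X)
  rw [this, csSup_add (hA.nonempty.image _) (bdd_image hA.bounded _) (hB.nonempty.image _)
    (bdd_image hB.bounded _)]

lemma R_smul {A : Set X} (hA : IsBC A) {c : ℝ} (hc : 0 ≤ c) : R (c • A) = c • R A := by
  ext f
  show R (c • A) f = c • (R A f)
  rw [R_apply hA, R_apply (hA.smul c)]
  have : (fun a => (f : StrongDual ℝ X) a) '' (c • A) =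
      c • ((fun a => (f : StrongDual ℝ X) a) '' A) := by
    ext y
    simp only [mem_image, mem_smul_set]
    constructor
    · rintro ⟨_, ⟨a, ha, rfl⟩, rfl⟩
      exact ⟨_, ⟨a, ha, rfl⟩, by simp⟩
    · rintro ⟨_, ⟨a, ha, rfl⟩, rfl⟩
      exact ⟨_, ⟨a, ha, rfl⟩, by simp⟩
  rw [this, Real.sSup_smul_of_nonneg hc]

lemma R_zero : R (0 : Set X) = 0 := by
  ext f
  rw [R_apply isBC_zero]
  simp

lemma R_sum {ι : Type*} (s : Finset ι) {A : ι → Set X} (hA : ∀ i ∈ s, IsBC (A i)) :
    R (∑ i ∈ s, A i) = ∑ i ∈ s, R (A i) := by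
  classical
  induction s using Finset.induction_on with
  | empty => simpa using R_zero
  | insert a s ha ih =>
    rw [Finset.sum_insert ha, Finset.sum_insert ha,
      R_add (hA a (Finset.mem_insert_self _ _))
        (IsBC.sum s (fun i hi => hA i (Finset.mem_insert_of_mem hi))),
      ih (fun i hi => hA i (Finset.mem_insert_of_mem hi))]

/-- infinite Minkowski sums -/
def Msum (C : ℕ → Set X) : Set X := {x | ∃ u : ℕ → X, (∀ l, u l ∈ C l) ∧ HasSum u x}

lemma Msum_split (C : ℕ → Set X) (i : ℕ) :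
    Msum C = C i + Msum (Function.update C i {0}) := by
  ext x
  simp only [Msum, Set.mem_add, mem_ofPred_eq]
  constructor
  · rintro ⟨u, hu, hs⟩
    refine ⟨u i, hu i, x - u i, ⟨Function.update u i 0, ?_, ?_⟩, by abel⟩
    · intro l
      by_cases hl : l = i
      · subst hl; simp
      · rw [Function.update_of_ne hl, Function.update_of_ne hl]; exact hu l
    · have := hs.update i 0
      rwa [zero_sub, neg_add_eq_sub] at this
  · rintro ⟨a, ha, w, ⟨u, hu, hs⟩, rfl⟩
    refine ⟨Function.update u i a, ?_, ?_⟩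
    · intro l
      by_cases hl : l = i
      · subst hl; simpa using ha
      · have := hu l
        rw [Function.update_of_ne hl] at this ⊢
        exact this
    · have h0 : u i = 0 := by simpa using hu i
      have := hs.update i a
      rwa [h0, sub_zero] at this

variable [CompleteSpace X]

lemma Msum_isBC {C : ℕ → Set X} (hC : ∀ l, IsBC (C l)) {r : ℕ → ℝ} (hr : Summable r)
    (hCr : ∀ l, ∀ x ∈ C l, ‖x‖ ≤ r l) : IsBC (Msum C) ∧ ∀ x ∈ Msum C, ‖x‖ ≤ ∑' l, r l := by
  have hb : ∀ x ∈ Msum C, ‖x‖ ≤ ∑' l, r l := by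
    rintro x ⟨u, hu, hs⟩
    have h1 : Summable (fun l => ‖u l‖) :=
      Summable.of_nonneg_of_le (fun l => norm_nonneg _) (fun l => hCr l _ (hu l)) hr
    rw [← hs.tsum_eq]
    exact (norm_tsum_le_tsum_norm h1).trans (h1.tsum_le_tsum (fun l => hCr l _ (hu l)) hr)
  refine ⟨⟨?_, ?_, ?_⟩, hb⟩
  · choose u hu using fun l => (hC l).nonempty
    have h1 : Summable u := Summable.of_norm_bounded hr (fun l => hCr l _ (hu l))
    exact ⟨_, u, hu, h1.hasSum⟩
  · rintro x ⟨u, hu, hs⟩ y ⟨v, hv, ht⟩ a b ha hb hab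
    exact ⟨fun l => a • u l + b • v l, fun l => (hC l).convex (hu l) (hv l) ha hb hab,
      (hs.const_smul a).add (ht.const_smul b)⟩
  · exact isBounded_iff_forall_norm_le.mpr ⟨_, hb⟩

lemma Msum_compact {C : ℕ → Set X} (hC : ∀ l, IsCompact (C l)) {r : ℕ → ℝ} (hr : Summable r)
    (hCr : ∀ l, ∀ x ∈ C l, ‖x‖ ≤ r l) : IsCompact (Msum C) := by
  have e : Msum C = (fun u : ℕ → X => ∑' l, u l) '' (Set.univ.pi C) := by
    ext x
    simp only [Msum, mem_ofPred_eq, mem_image, mem_univ_pi]
    constructor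
    · rintro ⟨u, hu, hs⟩
      exact ⟨u, hu, hs.tsum_eq⟩
    · rintro ⟨u, hu, rfl⟩
      have h1 : Summable u := Summable.of_norm_bounded hr (fun l => hCr l _ (hu l))
      exact ⟨u, hu, h1.hasSum⟩
  rw [e]
  apply (isCompact_univ_pi hC).image_of_continuousOn
  apply continuousOn_tsum (u := r)
  · intro l
    exact (continuous_apply l).continuousOn
  · exact hr
  · intro l u hu
    exact hCr l _ (hu l (mem_univ l))

end support

end Pool.Agent.Q210.RS
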