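import Mathlib
import Pool.Agent.Q210.RS.Sets

namespace Pool.Agent.Q210.RS

open MeasureTheory Set Filter Topology ProbabilityTheory
open scoped Pointwise BoundedContinuousFunction ENNReal RealInnerProductSpace

section hilbert

variable {X : Type*} [NormedAddCommGroup X] [InnerProductSpace ℝ X]
  {e : (ℕ →₀ ℕ) → X}

/-- number of values at time `i` -/
def qq (s i : ℕ) : ℕ := 4 ^ (i + s)

lemma qq_pos (s i : ℕ) : 0 < qq s i := by unfold qq; positivity

/-- block of times -/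
def T (k : ℕ) : Finset ℕ := Finset.Ico (2 ^ k - 1) (2 ^ (k + 1) - 1)

/-- level of a time -/
def lev (i : ℕ) : ℕ := Nat.log 2 (i + 1)

lemma mem_T_lev (i : ℕ) : i ∈ T (lev i) := by
  unfold T lev
  rw [Finset.mem_Ico]
  have h1 := Nat.pow_log_le_self 2 (show i + 1 ≠ 0 by omega)
  have h2 := Nat.lt_pow_succ_log_self (b := 2) (by norm_num) (i + 1)
  constructor
  · omega
  · have h3 : 2 ^ (Nat.log 2 (i + 1) + 1) = 2 ^ (Nat.log 2 (i + 1)).succ := rfl
    omega

lemma lev_eq {i k : ℕ} (h : i ∈ T k) : lev i = k := by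
  unfold T at h
  rw [Finset.mem_Ico] at h
  unfold lev
  have h0 : 0 < 2 ^ k := by positivity
  apply (Nat.log_eq_iff (Or.inr ⟨by norm_num, by omega⟩)).mpr
  constructor <;> omega

/-- the finite index set of the level of time `i` -/
noncomputable def G (s i : ℕ) : Finset (ℕ →₀ ℕ) :=
  Finset.finsupp (T (lev i)) (fun l => Finset.range (qq s l))

/-- the random parts -/
def V (e : (ℕ →₀ ℕ) → X) (s i a : ℕ) : Set X :=
  convexHull ℝ ((fun g => (1 / 2 : ℝ) • e g) '' {g | g ∈ G s i ∧ g i = a})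

lemma gen_finite (s i a : ℕ) : ({g | g ∈ G s i ∧ g i = a} : Set (ℕ →₀ ℕ)).Finite :=
  (G s i).finite_toSet.subset (fun _ h => h.1)

lemma gen_nonempty {s i a : ℕ} (ha : a < qq s i) :
    ({g | g ∈ G s i ∧ g i = a} : Set (ℕ →₀ ℕ)).Nonempty := by
  refine ⟨Finsupp.single i a, ?_, by simp⟩
  unfold G
  rw [Finset.mem_finsupp_iff]
  constructor
  · refine Finsupp.support_single_subset.trans ?_
    rw [Finset.singleton_subset_iff]
    exact mem_T_lev i
  · intro l _
    rw [Finset.mem_range]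
    by_cases hl : l = i
    · subst hl; simpa using ha
    · rw [Finsupp.single_eq_of_ne hl]
      exact qq_pos s l

lemma V_compact (s i a : ℕ) : IsCompact (V e s i a) :=
  ((gen_finite s i a).image _).isCompact_convexHull ℝ

lemma V_norm (he : Orthonormal ℝ e) (s i a : ℕ) : ∀ x ∈ V e s i a, ‖x‖ ≤ 1 / 2 := by
  have h : V e s i a ⊆ Metric.closedBall (0 : X) (1 / 2) := by
    apply convexHull_min _ (convex_closedBall _ _)
    rintro _ ⟨g, _, rfl⟩
    rw [mem_closedBall_zero_iff, norm_smul, he.1 g]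
    norm_num
  intro x hx
  exact mem_closedBall_zero_iff.mp (h hx)

lemma V_isBC (he : Orthonormal ℝ e) {s i a : ℕ} (ha : a < qq s i) : IsBC (V e s i a) :=
  ⟨((gen_nonempty ha).image _).convexHull, convex_convexHull _ _,
    isBounded_iff_forall_norm_le.mpr ⟨_, V_norm he s i a⟩⟩

lemma V_inner_nonneg (he : Orthonormal ℝ e) (s i a : ℕ) (g : ℕ →₀ ℕ) :
    ∀ x ∈ V e s i a, 0 ≤ ⟪e g, x⟫ := by
  have h : V e s i a ⊆ {x | 0 ≤ ⟪e g, x⟫} := by
    apply convexHull_min
    · rintro _ ⟨g', _, rfl⟩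
      show 0 ≤ ⟪e g, (1 / 2 : ℝ) • e g'⟫
      rw [inner_smul_right, orthonormal_iff_ite.mp he]
      split_ifs <;> norm_num
    · intro x hx y hy a b ha hb _
      show 0 ≤ ⟪e g, a • x + b • y⟫
      rw [inner_add_right, inner_smul_right, inner_smul_right]
      have h1 : 0 ≤ ⟪e g, x⟫ := hx
      have h2 : 0 ≤ ⟪e g, y⟫ := hy
      positivity
  exact fun x hx => h hx

lemma V_orth (he : Orthonormal ℝ e) {s i a b : ℕ} (hab : a ≠ b) {x y : X} (hx : x ∈ V e s i a)
    (hy : y ∈ V e s i b) : ⟪x, y⟫ = 0 := by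
  have h1 : ∀ g : ℕ →₀ ℕ, g i = b → ∀ x ∈ V e s i a, ⟪x, e g⟫ = 0 := by
    intro g hg
    have h : V e s i a ⊆ {x | ⟪x, e g⟫ = 0} := by
      apply convexHull_min
      · rintro _ ⟨g', hg', rfl⟩
        show ⟪(1 / 2 : ℝ) • e g', e g⟫ = 0
        have hne : g' ≠ g := by
          rintro rfl
          exact hab (hg'.2.symm.trans hg)
        rw [real_inner_smul_left, he.2 hne, mul_zero]
      · intro x hx y hy a b _ _ _
        show ⟪a • x + b • y, e g⟫ = 0
        have h1 : ⟪x, e g⟫ = 0 := hx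
        have h2 : ⟪y, e g⟫ = 0 := hy
        rw [inner_add_left, real_inner_smul_left, real_inner_smul_left, h1, h2]
        simp
    exact fun x hx => h hx
  have h2 : V e s i b ⊆ {y | ⟪x, y⟫ = 0} := by
    apply convexHull_min
    · rintro _ ⟨g, hg, rfl⟩
      show ⟪x, (1 / 2 : ℝ) • e g⟫ = 0
      rw [inner_smul_right, h1 g hg.2 x hx, mul_zero]
    · intro y hy z hz a b _ _ _
      show ⟪x, a • y + b • z⟫ = 0
      have h1 : ⟪x, y⟫ = 0 := hy
      have h2 : ⟪x, z⟫ = 0 := hz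
      rw [inner_add_right, inner_smul_right, inner_smul_right, h1, h2]
      simp
  exact h2 hy

/-- the common expectation of the random part of time `i` -/
def U (e : (ℕ →₀ ℕ) → X) (s i : ℕ) : Set X :=
  ((qq s i : ℝ)⁻¹) • ∑ a ∈ Finset.range (qq s i), V e s i a

lemma U_isBC (he : Orthonormal ℝ e) (s i : ℕ) : IsBC (U e s i) :=
  (IsBC.sum _ (fun _ ha => V_isBC he (Finset.mem_range.mp ha))).smul _

lemma isCompact_sum {ι : Type*} (t : Finset ι) {A : ι → Set X} (hA : ∀ i ∈ t, IsCompact (A i)) :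
    IsCompact (∑ i ∈ t, A i) := by
  classical
  induction t using Finset.induction_on with
  | empty =>
    rw [Finset.sum_empty]
    exact isCompact_singleton
  | insert a t ha ih =>
    rw [Finset.sum_insert ha]
    exact (hA a (Finset.mem_insert_self _ _)).add
      (ih (fun i hi => hA i (Finset.mem_insert_of_mem hi)))

lemma U_compact (s i : ℕ) : IsCompact (U e s i) :=
  (isCompact_sum _ (fun a _ => V_compact s i a)).smul _

lemma norm_sq_sum {ι : Type*} [DecidableEq ι] (t : Finset ι) (x : ι → X)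
    (h : ∀ i ∈ t, ∀ j ∈ t, i ≠ j → ⟪x i, x j⟫ = 0) :
    ‖∑ i ∈ t, x i‖ ^ 2 = ∑ i ∈ t, ‖x i‖ ^ 2 := by
  induction t using Finset.induction_on with
  | empty => simp
  | insert a t ha ih =>
    rw [Finset.sum_insert ha, Finset.sum_insert ha, norm_add_sq_real, inner_sum,
      Finset.sum_eq_zero, ih (fun i hi j hj => h i (Finset.mem_insert_of_mem hi) j
        (Finset.mem_insert_of_mem hj))]
    · ring
    · intro j hj
      apply h a (Finset.mem_insert_self _ _) j (Finset.mem_insert_of_mem hj)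
      rintro rfl
      exact ha hj

lemma U_norm (he : Orthonormal ℝ e) (s i : ℕ) :
    ∀ x ∈ U e s i, ‖x‖ ≤ (1 / 2) * ((1 / 2) ^ s * (1 / 2) ^ i) := by
  intro x hx
  obtain ⟨y, hy, rfl⟩ := hx
  obtain ⟨z, hz, rfl⟩ := (Set.mem_finsetSum _ _ _).mp hy
  have h1 : ‖∑ a ∈ Finset.range (qq s i), z a‖ ^ 2 ≤ (qq s i : ℝ) * (1 / 2) ^ 2 := by
    rw [norm_sq_sum]
    · calc ∑ a ∈ Finset.range (qq s i), ‖z a‖ ^ 2 ≤
          ∑ a ∈ Finset.range (qq s i), (1 / 2 : ℝ) ^ 2 := by
            apply Finset.sum_le_sum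
            intro a ha
            apply pow_le_pow_left₀ (norm_nonneg _)
            exact V_norm he s i a _ (hz ha)
        _ = _ := by simp
    · intro a ha b hb hab
      exact V_orth he hab (hz ha) (hz hb)
  have hq : (0 : ℝ) < qq s i := by exact_mod_cast qq_pos s i
  have h2 : ‖((qq s i : ℝ)⁻¹) • ∑ a ∈ Finset.range (qq s i), z a‖ ^ 2 ≤
      ((1 / 2) * ((1 / 2) ^ s * (1 / 2) ^ i)) ^ 2 := by
    rw [norm_smul, mul_pow, Real.norm_of_nonneg (by positivity)]
    calc ((qq s i : ℝ)⁻¹) ^ 2 * ‖∑ a ∈ Finset.range (qq s i), z a‖ ^ 2 ≤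
        ((qq s i : ℝ)⁻¹) ^ 2 * ((qq s i : ℝ) * (1 / 2) ^ 2) :=
          mul_le_mul_of_nonneg_left h1 (by positivity)
      _ = (qq s i : ℝ)⁻¹ * (1 / 2) ^ 2 := by
          field_simp
      _ = _ := by
          unfold qq
          push_cast
          rw [mul_pow, mul_pow, ← pow_mul, ← pow_mul, mul_comm s 2, mul_comm i 2, pow_mul, pow_mul,
            pow_add, mul_inv, ← inv_pow, ← inv_pow]
          norm_num
          ring
  exact abs_le_of_sq_le_sq' h2 (by positivity) |>.2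

lemma U_inner_nonneg (he : Orthonormal ℝ e) (s i : ℕ) (g : ℕ →₀ ℕ) :
    ∀ x ∈ U e s i, 0 ≤ ⟪e g, x⟫ := by
  intro x hx
  obtain ⟨y, hy, rfl⟩ := hx
  obtain ⟨z, hz, rfl⟩ := (Set.mem_finsetSum _ _ _).mp hy
  show 0 ≤ ⟪e g, ((qq s i : ℝ)⁻¹) • ∑ a ∈ Finset.range (qq s i), z a⟫
  rw [inner_smul_right, inner_sum]
  apply mul_nonneg (by positivity)
  apply Finset.sum_nonneg
  intro a ha
  exact V_inner_nonneg he s i a g _ (hz ha)

end hilbert

end Pool.Agent.Q210.RS
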