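import Mathlib
import Pool.Agent.Q210.RS.Blocks

namespace Pool.Agent.Q210.RS

open MeasureTheory Set Filter Topology ProbabilityTheory
open scoped Pointwise BoundedContinuousFunction ENNReal RealInnerProductSpace

section prob

variable {X : Type*} [NormedAddCommGroup X] [InnerProductSpace ℝ X]
  {e : (ℕ →₀ ℕ) → X}

instance nonempty_fin (s i : ℕ) : Nonempty (Fin (qq s i)) := ⟨⟨0, qq_pos s i⟩⟩

/-- uniform law -/
noncomputable def unif (s i : ℕ) : Measure (Fin (qq s i)) :=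
  (PMF.uniformOfFintype (Fin (qq s i))).toMeasure

instance unif_prob (s i : ℕ) : IsProbabilityMeasure (unif s i) := by
  unfold unif
  infer_instance

/-- the product law -/
noncomputable def PP (s : ℕ) : Measure (∀ i, Fin (qq s i)) := Measure.infinitePi (unif s)

instance PP_prob (s : ℕ) : IsProbabilityMeasure (PP s) := by
  unfold PP
  infer_instance

/-- compensating part -/
def W (e : (ℕ →₀ ℕ) → X) (s i : ℕ) : Set X := Msum (Function.update (U e s) i {0})

/-- the random sets -/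
def Psi (e : (ℕ →₀ ℕ) → X) (s i : ℕ) (ω : ∀ i, Fin (qq s i)) : Set X :=
  V e s i (ω i) + W e s i

/-- the common expectation -/
def UU (e : (ℕ →₀ ℕ) → X) (s : ℕ) : Set X := Msum (U e s)

lemma rr_hasSum (s : ℕ) :
    HasSum (fun l : ℕ => (1 / 2 : ℝ) * ((1 / 2) ^ s * (1 / 2) ^ l)) ((1 / 2) ^ s) := by
  have h := (hasSum_geometric_of_lt_one (r := (1 / 2 : ℝ)) (by norm_num) (by norm_num)).mul_left
    ((1 / 2 : ℝ) * (1 / 2) ^ s)
  have e1 : (1 / 2 : ℝ) * (1 / 2) ^ s * (1 - 1 / 2)⁻¹ = (1 / 2) ^ s := by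
    norm_num
    ring
  rw [e1] at h
  refine h.congr_fun ?_
  intro l
  ring

lemma W_data (he : Orthonormal ℝ e) (s i : ℕ) : (∀ l, IsBC (Function.update (U e s) i {0} l)) ∧
    ∀ l, ∀ x ∈ Function.update (U e s) i {0} l, ‖x‖ ≤ (1 / 2) * ((1 / 2) ^ s * (1 / 2) ^ l) := by
  constructor
  · intro l
    by_cases hl : l = i
    · subst hl
      rw [Function.update_self]
      exact isBC_zero
    · rw [Function.update_of_ne hl]
      exact U_isBC he s l
  · intro l x hx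
    by_cases hl : l = i
    · subst hl
      rw [Function.update_self] at hx
      rw [mem_singleton_iff.mp hx, norm_zero]
      positivity
    · rw [Function.update_of_ne hl] at hx
      exact U_norm he s l x hx

lemma W_inner_nonneg (he : Orthonormal ℝ e) (s i : ℕ) (g : ℕ →₀ ℕ) :
    ∀ x ∈ W e s i, 0 ≤ ⟪e g, x⟫ := by
  rintro x ⟨u, hu, hs⟩
  have h1 : HasSum (fun l => ⟪e g, u l⟫) ⟪e g, x⟫ := hs.mapL (innerSL ℝ (e g))
  apply h1.nonneg
  intro l
  have h2 := hu l
  by_cases hl : l = i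
  · subst hl
    rw [Function.update_self] at h2
    rw [mem_singleton_iff.mp h2, inner_zero_right]
  · rw [Function.update_of_ne hl] at h2
    exact U_inner_nonneg he s l g _ h2

variable [CompleteSpace X]

lemma UU_isBC (he : Orthonormal ℝ e) (s : ℕ) :
    IsBC (UU e s) ∧ ∀ x ∈ UU e s, ‖x‖ ≤ (1 / 2) ^ s := by
  have h := Msum_isBC (C := U e s) (fun l => U_isBC he s l) (rr_hasSum s).summable
    (fun l => U_norm he s l)
  rw [(rr_hasSum s).tsum_eq] at h
  exact h

lemma UU_compact (he : Orthonormal ℝ e) (s : ℕ) : IsCompact (UU e s) :=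
  Msum_compact (C := U e s) (fun l => U_compact s l) (rr_hasSum s).summable
    (fun l => U_norm he s l)

lemma W_isBC (he : Orthonormal ℝ e) (s i : ℕ) :
    IsBC (W e s i) ∧ ∀ x ∈ W e s i, ‖x‖ ≤ (1 / 2) ^ s := by
  have h := Msum_isBC (W_data he s i).1 (rr_hasSum s).summable (W_data he s i).2
  rw [(rr_hasSum s).tsum_eq] at h
  exact h

lemma Psi_isBC (he : Orthonormal ℝ e) (s i : ℕ) (ω : ∀ i, Fin (qq s i)) :
    IsBC (Psi e s i ω) ∧ ∀ x ∈ Psi e s i ω, ‖x‖ ≤ 1 / 2 + (1 / 2) ^ s := by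
  refine ⟨(V_isBC he (ω i).2).add (W_isBC he s i).1, ?_⟩
  rintro x ⟨v, hv, w, hw, rfl⟩
  exact (norm_add_le v w).trans (add_le_add (V_norm he s i _ v hv) ((W_isBC he s i).2 w hw))

lemma R_Psi (he : Orthonormal ℝ e) (s i : ℕ) (ω : ∀ i, Fin (qq s i)) :
    R (Psi e s i ω) = R (V e s i (ω i)) + R (W e s i) :=
  R_add (V_isBC he (ω i).2) (W_isBC he s i).1

lemma Psi_sm (he : Orthonormal ℝ e) (s i : ℕ) :
    StronglyMeasurable (fun ω => R (Psi e s i ω)) := by
  have h : StronglyMeasurable (fun a : Fin (qq s i) => R (V e s i a) + R (W e s i)) :=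
    StronglyMeasurable.of_discrete
  have h2 := h.comp_measurable (measurable_pi_apply (X := fun i => Fin (qq s i)) i)
  refine (congrArg StronglyMeasurable ?_).mpr h2
  funext ω
  exact R_Psi he s i ω

lemma Psi_integrable (he : Orthonormal ℝ e) (s i : ℕ) :
    Integrable (fun ω => R (Psi e s i ω)) (PP s) := by
  have h : Integrable (fun a : Fin (qq s i) => R (V e s i a) + R (W e s i)) (unif s i) :=
    Integrable.of_finite
  have hm : (PP s).map (fun ω => ω i) = unif s i := Measure.infinitePi_map_eval (unif s) i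
  rw [← hm] at h
  have h2 := Integrable.comp_measurable (f := fun ω : ∀ i, Fin (qq s i) => ω i) h
    (measurable_pi_apply i)
  refine (congrArg (fun f => Integrable f (PP s)) ?_).mpr h2
  funext ω
  exact R_Psi he s i ω

lemma Psi_exp (he : Orthonormal ℝ e) (s i : ℕ) :
    ∫ ω, R (Psi e s i ω) ∂(PP s) = R (UU e s) := by
  have hm : (PP s).map (fun ω => ω i) = unif s i := Measure.infinitePi_map_eval (unif s) i
  have h1 : ∫ ω, R (Psi e s i ω) ∂(PP s) =
      ∫ a : Fin (qq s i), (R (V e s i a) + R (W e s i)) ∂(unif s i) := by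
    rw [← hm, integral_map (measurable_pi_apply i).aemeasurable
      (StronglyMeasurable.of_discrete).aestronglyMeasurable]
    congr 1
    funext ω
    exact R_Psi he s i ω
  rw [h1, integral_add Integrable.of_finite Integrable.of_finite]
  have h2 : ∫ a : Fin (qq s i), R (V e s i a) ∂(unif s i) =
      ((qq s i : ℝ)⁻¹) • ∑ a ∈ Finset.range (qq s i), R (V e s i a) := by
    unfold unif
    rw [PMF.integral_eq_sum, Finset.smul_sum, Finset.sum_range]
    apply Finset.sum_congr rfl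
    intro a _
    simp
  rw [h2]
  have h3 : UU e s = U e s i + W e s i := Msum_split _ i
  rw [h3, R_add (U_isBC he s i) (W_isBC he s i).1]
  congr 1
  · unfold U
    rw [R_smul (IsBC.sum _ (fun _ ha => V_isBC he (Finset.mem_range.mp ha))) (by positivity),
      R_sum _ (fun _ ha => V_isBC he (Finset.mem_range.mp ha))]
  · simp

lemma Psi_indep (he : Orthonormal ℝ e) (s : ℕ) :
    iIndepFun (m := fun _ => borel (Metric.sphere (0 : StrongDual ℝ X) 1 →ᵇ ℝ))
      (fun i ω => R (Psi e s i ω)) (PP s) := by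
  let m0 : ∀ _ : ℕ, MeasurableSpace (Metric.sphere (0 : StrongDual ℝ X) 1 →ᵇ ℝ) :=
    fun _ => borel _
  have h := iIndepFun_infinitePi (m𝓧 := m0) (P := unif s)
    (X := fun i (a : Fin (qq s i)) => R (V e s i a) + R (W e s i))
    (fun i => by
      let _ := m0 i
      exact Measurable.of_discrete)
  refine (congrArg (fun f => iIndepFun (m := m0) f (PP s)) ?_).mpr h
  funext i ω
  exact R_Psi he s i ω

/-- the average at the end of a block contains a vector of norm at least `1/4` -/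
lemma big (he : Orthonormal ℝ e) (s k : ℕ) (ω : ∀ i, Fin (qq s i)) :
    ∃ x ∈ (((2 ^ (k + 1) - 1 : ℕ) : ℝ)⁻¹) • ∑ i ∈ Finset.range (2 ^ (k + 1) - 1), Psi e s i ω,
      1 / 4 ≤ ‖x‖ := by
  classical
  let g : ℕ →₀ ℕ := Finsupp.onFinset (T k) (fun l => if l ∈ T k then (ω l : ℕ) else 0)
    (fun l hl => by
      by_contra h
      exact hl (if_neg h))
  have hg : ∀ l ∈ T k, g l = ω l := fun l hl => by
    show (if l ∈ T k then (ω l : ℕ) else 0) = ω l
    rw [if_pos hl]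
  have hgG : ∀ i ∈ T k, g ∈ G s i := by
    intro i hi
    unfold G
    rw [lev_eq hi, Finset.mem_finsupp_iff]
    refine ⟨Finsupp.support_onFinset_subset, ?_⟩
    intro l hl
    rw [Finset.mem_range, hg l hl]
    exact (ω l).2
  have hx : ∀ i, ∃ x ∈ Psi e s i ω, 0 ≤ ⟪e g, x⟫ ∧ (i ∈ T k → 1 / 2 ≤ ⟪e g, x⟫) := by
    intro i
    obtain ⟨w, hw⟩ := (W_isBC he s i).1.nonempty
    have hw0 := W_inner_nonneg he s i g w hw
    by_cases hi : i ∈ T k
    · have hv : (1 / 2 : ℝ) • e g ∈ V e s i (ω i) := by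
        apply subset_convexHull
        exact ⟨g, ⟨hgG i hi, hg i hi⟩, rfl⟩
      refine ⟨(1 / 2 : ℝ) • e g + w, ⟨_, hv, _, hw, rfl⟩, ?_⟩
      have h1 : ⟪e g, (1 / 2 : ℝ) • e g + w⟫ = 1 / 2 + ⟪e g, w⟫ := by
        rw [inner_add_right, inner_smul_right, real_inner_self_eq_norm_sq, he.1 g]
        norm_num
      rw [h1]
      exact ⟨by linarith, fun _ => by linarith⟩
    · obtain ⟨v, hv⟩ := (V_isBC he (i := i) (ω i).2).nonempty
      have hv0 := V_inner_nonneg he s i _ g v hv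
      refine ⟨v + w, ⟨_, hv, _, hw, rfl⟩, ?_⟩
      rw [inner_add_right]
      exact ⟨by linarith, fun h => absurd h hi⟩
  choose x hx1 hx2 hx3 using hx
  refine ⟨(((2 ^ (k + 1) - 1 : ℕ) : ℝ)⁻¹) • ∑ i ∈ Finset.range (2 ^ (k + 1) - 1), x i,
    Set.smul_mem_smul_set (Set.finsetSum_mem_finsetSum _ _ _ (fun i _ => hx1 i)), ?_⟩
  have h1 : ⟪e g, (((2 ^ (k + 1) - 1 : ℕ) : ℝ)⁻¹) •
      ∑ i ∈ Finset.range (2 ^ (k + 1) - 1), x i⟫ ≤
      ‖(((2 ^ (k + 1) - 1 : ℕ) : ℝ)⁻¹) • ∑ i ∈ Finset.range (2 ^ (k + 1) - 1), x i‖ := by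
    have := real_inner_le_norm (e g) ((((2 ^ (k + 1) - 1 : ℕ) : ℝ)⁻¹) •
      ∑ i ∈ Finset.range (2 ^ (k + 1) - 1), x i)
    rwa [he.1 g, one_mul] at this
  refine le_trans ?_ h1
  rw [inner_smul_right, inner_sum]
  have hsub : T k ⊆ Finset.range (2 ^ (k + 1) - 1) := by
    intro i hi
    unfold T at hi
    rw [Finset.mem_Ico] at hi
    exact Finset.mem_range.mpr hi.2
  have h2 : ∑ i ∈ T k, ⟪e g, x i⟫ ≤ ∑ i ∈ Finset.range (2 ^ (k + 1) - 1), ⟪e g, x i⟫ :=
    Finset.sum_le_sum_of_subset_of_nonneg hsub (fun i _ _ => hx2 i)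
  have h3 : (2 ^ k : ℝ) * (1 / 2) ≤ ∑ i ∈ T k, ⟪e g, x i⟫ := by
    have h4 : ∑ i ∈ T k, (1 / 2 : ℝ) ≤ ∑ i ∈ T k, ⟪e g, x i⟫ :=
      Finset.sum_le_sum (fun i hi => hx3 i hi)
    have h5 : (T k).card = 2 ^ k := by
      unfold T
      rw [Nat.card_Ico]
      have h0 : 0 < 2 ^ k := by positivity
      have : 2 ^ (k + 1) = 2 * 2 ^ k := by ring
      omega
    rw [Finset.sum_const, h5, nsmul_eq_mul] at h4
    push_cast at h4
    exact h4
  have hpos : 0 < 2 ^ k := by positivity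
  have hn : 0 < 2 ^ (k + 1) - 1 := by
    have : 2 ^ (k + 1) = 2 * 2 ^ k := by ring
    omega
  have hn' : (0 : ℝ) < ((2 ^ (k + 1) - 1 : ℕ) : ℝ) := by exact_mod_cast hn
  have hle : ((2 ^ (k + 1) - 1 : ℕ) : ℝ) ≤ 2 * 2 ^ k := by
    have : 2 ^ (k + 1) - 1 ≤ 2 * 2 ^ k := by
      have : 2 ^ (k + 1) = 2 * 2 ^ k := by ring
      omega
    exact_mod_cast this
  rw [inv_mul_eq_div, le_div_iff₀ hn']
  have h6 : (0 : ℝ) < 2 ^ k := by positivity
  nlinarith

end prob

/-- The Hilbert space used. -/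
abbrev H := lp (fun _ : (ℕ →₀ ℕ) => ℝ) 2

/-- its standard basis -/
noncomputable def basisH : HilbertBasis (ℕ →₀ ℕ) ℝ H :=
  HilbertBasis.ofRepr (LinearIsometryEquiv.refl ℝ H)

end Pool.Agent.Q210.RS
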